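import Pool.Agent.FHQ.StmtsO

/-!
# HOM: homogeneous comparison
-/

set_option autoImplicit false

noncomputable section

namespace Pool.Agent.FHQ.H77

/-- `b` on `S`, `a` elsewhere -/
def mix {D : ℕ} {α : Type} (a b : Fin D → α) (S : Finset (Fin D)) : Fin D → α :=
  fun j => if j ∈ S then b j else a j

theorem sg_mix {D n n' : ℕ} (s : Fin D → Fin n' → Fin n) (a b : Fin D → Fin n')
    (S : Finset (Fin D)) : sg s (mix a b S) = mix (sg s a) (sg s b) S := by
  funext j
  unfold sg mix
  split_ifs <;> rfl

theorem hom (hPR : PrStmt) : HomStmt := by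
  classical
  intro D n'
  obtain ⟨n, hn⟩ := hPR D (n' + 1) (Finset (Fin D) → Finset (Fin D) → Prop)
  refine ⟨n, fun γ => ?_⟩
  obtain ⟨s', hs', c, hc⟩ := hn fun a b S S' => γ (mix a b S) < γ (mix a b S')
  -- the subgrid without the last points
  set s1 : Fin D → Fin n' → Fin n := fun j a => s' j a.castSucc with hs1
  have key : ∀ η η' : Fin D → Fin n', (γ (sg s1 η) < γ (sg s1 η') ↔
      c (Finset.univ.filter fun j => η' j < η j) (Finset.univ.filter fun j => η j < η' j)) := by
    intro η η'
    set a : Fin D → Fin (n' + 1) := fun j => (min (η j) (η' j)).castSucc with ha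
    set b : Fin D → Fin (n' + 1) := fun j =>
      if η j = η' j then Fin.last n' else (max (η j) (η' j)).castSucc with hb
    have hab : ∀ j, a j < b j := by
      intro j
      simp only [ha, hb]
      split_ifs with h
      · exact Fin.castSucc_lt_last _
      · rw [Fin.castSucc_lt_castSucc_iff, min_lt_max]
        exact h
    have h1 := congrFun (congrFun (hc a b hab) (Finset.univ.filter fun j => η' j < η j))
      (Finset.univ.filter fun j => η j < η' j)
    rw [← sg_mix, ← sg_mix] at h1
    have h2 : sg s' (mix a b (Finset.univ.filter fun j => η' j < η j)) = sg s1 η := by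
      funext j
      unfold sg mix
      simp only [ha, hb, hs1, Finset.mem_filter, Finset.mem_univ, true_and]
      by_cases h : η' j < η j
      · rw [if_pos h, if_neg h.ne', max_eq_left h.le]
      · rw [if_neg h, min_eq_left (not_lt.1 h)]
    have h3 : sg s' (mix a b (Finset.univ.filter fun j => η j < η' j)) = sg s1 η' := by
      funext j
      unfold sg mix
      simp only [ha, hb, hs1, Finset.mem_filter, Finset.mem_univ, true_and]
      by_cases h : η j < η' j
      · rw [if_pos h, if_neg h.ne, max_eq_right h.le]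
      · rw [if_neg h, min_eq_right (not_lt.1 h)]
    rw [h2, h3] at h1
    rw [← h1]
  have H : ∀ η η' ζ ζ' : Fin D → Fin n',
      (∀ j, (η j < η' j ↔ ζ j < ζ' j) ∧ (η' j < η j ↔ ζ' j < ζ j)) →
      (γ (sg s1 η) < γ (sg s1 η') ↔ γ (sg s1 ζ) < γ (sg s1 ζ')) := by
    intro η η' ζ ζ' h
    rw [key, key]
    have e1 : (Finset.univ.filter fun j => η' j < η j) =
        Finset.univ.filter fun j => ζ' j < ζ j :=
      Finset.filter_congr fun j _ => (h j).2
    have e2 : (Finset.univ.filter fun j => η j < η' j) =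
        Finset.univ.filter fun j => ζ j < ζ' j :=
      Finset.filter_congr fun j _ => (h j).1
    rw [e1, e2]
  set F : Finset (Fin D) := Finset.univ.filter fun j => ∃ η η' : Fin D → Fin n',
    (∀ i, i ≠ j → η i = η' i) ∧ η j < η' j ∧ γ (sg s1 η') < γ (sg s1 η) with hF
  have hF1 : ∀ j ∈ F, ∀ ζ ζ' : Fin D → Fin n', (∀ i, i ≠ j → ζ i = ζ' i) → ζ j < ζ' j →
      γ (sg s1 ζ') < γ (sg s1 ζ) := by
    intro j hj ζ ζ' h1 h2
    rw [hF, Finset.mem_filter] at hj
    obtain ⟨-, η, η', h3, h4, h5⟩ := hj
    rw [← H η' η ζ' ζ]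
    · exact h5
    · intro i
      by_cases hi : i = j
      · subst hi
        exact ⟨⟨fun h => absurd h h4.not_gt, fun h => absurd h h2.not_gt⟩,
          ⟨fun _ => h2, fun _ => h4⟩⟩
      · rw [h1 i hi, h3 i hi]
        exact ⟨⟨fun h => absurd h (lt_irrefl _), fun h => absurd h (lt_irrefl _)⟩,
          ⟨fun h => absurd h (lt_irrefl _), fun h => absurd h (lt_irrefl _)⟩⟩
  have hF2 : ∀ j, j ∉ F → ∀ ζ ζ' : Fin D → Fin n', (∀ i, i ≠ j → ζ i = ζ' i) → ζ j < ζ' j →
      γ (sg s1 ζ) ≤ γ (sg s1 ζ') := by
    intro j hj ζ ζ' h1 h2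
    by_contra h3
    apply hj
    rw [hF, Finset.mem_filter]
    exact ⟨Finset.mem_univ _, ζ, ζ', h1, h2, not_le.1 h3⟩
  set r : (Fin D → Fin n') → (Fin D → Fin n') := fun η j => if j ∈ F then (η j).rev else η j
    with hr
  set s : Fin D → Fin n' → Fin n := fun j a => s1 j (if j ∈ F then a.rev else a) with hs
  have hsr : ∀ η, sg s η = sg s1 (r η) := fun η => rfl
  refine ⟨s, ?_, ?_, ?_⟩
  · intro j x y hxy
    have h1 : Function.Injective (s1 j) := fun u v huv =>
      Fin.castSucc_injective _ ((hs' j).injective huv)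
    have h2 : (if j ∈ F then x.rev else x) = (if j ∈ F then y.rev else y) := h1 hxy
    split_ifs at h2 with h
    · exact Fin.rev_injective h2
    · exact h2
  · intro η η' ζ ζ' h
    rw [hsr, hsr, hsr, hsr]
    apply H
    intro j
    simp only [hr]
    split_ifs with hj
    · rw [Fin.rev_lt_rev, Fin.rev_lt_rev, Fin.rev_lt_rev, Fin.rev_lt_rev]
      exact ⟨(h j).2, (h j).1⟩
    · exact h j
  · intro j η η' h1 h2
    rw [hsr, hsr]
    by_cases hj : j ∈ F
    · apply le_of_lt
      apply hF1 j hj
      · intro i hi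
        simp only [hr]
        rw [h1 i hi]
      · simp only [hr, if_pos hj]
        exact Fin.rev_lt_rev.2 h2
    · apply hF2 j hj
      · intro i hi
        simp only [hr]
        rw [h1 i hi]
      · simp only [hr, if_neg hj]
        exact h2

end Pool.Agent.FHQ.H77
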