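import Pool.Agent.FHQ.StmtsG

/-!
# RGS: regular heights
-/

set_option autoImplicit false

noncomputable section

namespace Pool.Agent.FHQ.H77

theorem rgs : RgsStmt := by
  intro p _ K m P g hg a u ha hu hX
  have h : ∀ a' u' : ZMod p, a' ≠ 0 → u' ≠ 0 → (P.X a' g ↔ P.X (a' * u' ^ m) (g + m)) := by
    intro a' u' ha' hu'
    by_contra hn
    exact hg ⟨a', u', ha', hu', hn⟩
  have h1 := (h a u ha hu).1 hX
  have h2 := h (a * u ^ m) 1 (mul_ne_zero ha (pow_ne_zero m hu)) one_ne_zero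
  rw [one_pow, mul_one] at h2
  exact h2.2 h1

end Pool.Agent.FHQ.H77
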