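import Pool.Agent.FHQ.StmtsZ

/-!
# ZGU: `1 + m` is a subgroup, for the ultraproduct
-/

set_option autoImplicit false

noncomputable section

namespace Pool.Agent.FHQ.H77

section factor

variable {K : Type} [Field K] {mx : Set K}

theorem gd_one (h : Gd K mx) : (1 : K) - 1 ∈ mx := by
  have h1 := (h 1 1).1 rfl
  simpa using h1

theorem gd_mul (h : Gd K mx) {a b : K} (ha : a ≠ 0) (hb : b ≠ 0) (h1 : a - 1 ∈ mx)
    (h2 : b - 1 ∈ mx) : a * b - 1 ∈ mx := by
  have e1 : rv K mx (Units.mk0 a ha) = rv K mx 1 := (h _ _).2 (by simpa using h1)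
  have e2 : rv K mx (Units.mk0 b hb) = rv K mx 1 := (h _ _).2 (by simpa using h2)
  have e3 : rv K mx (Units.mk0 a ha * Units.mk0 b hb) =
      rv K mx (Units.mk0 a ha) * rv K mx (Units.mk0 b hb) := rfl
  have e4 : rv K mx 1 = rv K mx 1 * rv K mx 1 := by
    have : rv K mx (1 * 1) = rv K mx 1 * rv K mx 1 := rfl
    rw [← this, mul_one]
  rw [e1, e2, ← e4] at e3
  have := (h _ _).1 e3
  simpa using this

theorem gd_inv (h : Gd K mx) {a : K} (ha : a ≠ 0) (h1 : a - 1 ∈ mx) : a⁻¹ - 1 ∈ mx := by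
  have e1 : rv K mx (Units.mk0 a ha) = rv K mx 1 := (h _ _).2 (by simpa using h1)
  have e3 : rv K mx (Units.mk0 a ha)⁻¹ = (rv K mx (Units.mk0 a ha))⁻¹ := rfl
  have e4 : rv K mx 1 = (rv K mx 1)⁻¹ := by
    have : rv K mx (1⁻¹) = (rv K mx 1)⁻¹ := rfl
    rw [← this, inv_one]
  rw [e1, ← e4] at e3
  have := (h _ _).1 e3
  simpa using this

end factor

section ultra

variable (F : ℕ → Type) [∀ i, Field (F i)] (U : Ultrafilter ℕ) (mx : ∀ i, Set (F i))

theorem cls_mul (f g : ∀ i, F i) : cls F U (f * g) = cls F U f * cls F U g :=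
  map_mul (Ideal.Quotient.mk (UI F U)) f g

theorem cls_one : cls F U 1 = 1 := map_one (Ideal.Quotient.mk (UI F U))

theorem cls_sub (f g : ∀ i, F i) : cls F U (f - g) = cls F U f - cls F U g :=
  map_sub (Ideal.Quotient.mk (UI F U)) f g

theorem cls_eq {f g : ∀ i, F i} :
    cls F U f = cls F U g ↔ ∀ᶠ i in (U : Filter ℕ), f i = g i := by
  unfold cls
  rw [Ideal.Quotient.eq, mem_UI]
  constructor
  · intro h
    exact h.mono fun i hi => sub_eq_zero.1 hi
  · intro h
    exact h.mono fun i hi => sub_eq_zero.2 hi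

/-- the units in `1 + UM` -/
theorem unit_iff (u : (UP F U)ˣ) : (u : UP F U) - 1 ∈ UM F U mx ↔
    ∃ g : ∀ i, F i, cls F U g = u ∧ ∀ᶠ i in (U : Filter ℕ), g i ≠ 0 ∧ g i - 1 ∈ mx i := by
  constructor
  · rintro ⟨f, hf, hm⟩
    refine ⟨f + 1, ?_, ?_⟩
    · have h1 : cls F U (f + 1) = cls F U f + 1 := by
        have := map_add (Ideal.Quotient.mk (UI F U)) f 1
        rw [map_one] at this
        exact this
      rw [h1, hf, sub_add_cancel]
    · have h1 : ∀ᶠ i in (U : Filter ℕ), (f + 1) i ≠ 0 := by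
        have h2 : ¬ ∀ᶠ i in (U : Filter ℕ), (f + 1) i = (0 : ∀ i, F i) i := by
          rw [← cls_eq F U (f := f + 1) (g := 0)]
          intro h3
          have h4 : cls F U (f + 1) = cls F U f + 1 := by
            have := map_add (Ideal.Quotient.mk (UI F U)) f 1
            rw [map_one] at this
            exact this
          rw [h4, hf, sub_add_cancel] at h3
          have h5 : cls F U 0 = 0 := map_zero (Ideal.Quotient.mk (UI F U))
          rw [h5] at h3
          exact u.ne_zero h3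
        rw [← Ultrafilter.eventually_not] at h2
        exact h2
      filter_upwards [h1, hm] with i hi hi'
      refine ⟨hi, ?_⟩
      have : (f + 1) i - 1 = f i := by
        show f i + 1 - 1 = f i
        ring
      rw [this]
      exact hi'
  · rintro ⟨g, hg, hm⟩
    refine ⟨g - 1, ?_, ?_⟩
    · rw [cls_sub, cls_one, hg]
    · filter_upwards [hm] with i hi
      exact hi.2

variable {mx}

/-- the subgroup `1 + UM` -/
def T (hG : ∀ i, Gd (F i) (mx i)) : Subgroup (UP F U)ˣ where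
  carrier := {u | (u : UP F U) - 1 ∈ UM F U mx}
  mul_mem' := by
    intro u v hu hv
    rw [Set.mem_ofPred_eq, unit_iff] at hu hv ⊢
    obtain ⟨f, hf, hf'⟩ := hu
    obtain ⟨g, hg, hg'⟩ := hv
    refine ⟨f * g, ?_, ?_⟩
    · rw [cls_mul, hf, hg, Units.val_mul]
    · filter_upwards [hf', hg'] with i h1 h2
      exact ⟨mul_ne_zero h1.1 h2.1, gd_mul (hG i) h1.1 h2.1 h1.2 h2.2⟩
  one_mem' := by
    rw [Set.mem_ofPred_eq, unit_iff]
    refine ⟨1, ?_, Filter.Eventually.of_forall fun i => ⟨one_ne_zero, gd_one (hG i)⟩⟩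
    rw [cls_one, Units.val_one]
  inv_mem' := by
    intro u hu
    rw [Set.mem_ofPred_eq, unit_iff] at hu ⊢
    obtain ⟨f, hf, hf'⟩ := hu
    refine ⟨fun i => (f i)⁻¹, ?_, ?_⟩
    · rw [Units.val_inv_eq_inv_val]
      apply eq_inv_of_mul_eq_one_left
      rw [← hf, ← cls_mul, ← cls_one, cls_eq]
      filter_upwards [hf'] with i hi
      show (f i)⁻¹ * f i = 1
      exact inv_mul_cancel₀ hi.1
    · filter_upwards [hf'] with i hi
      exact ⟨inv_ne_zero hi.1, gd_inv (hG i) hi.1 hi.2⟩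

end ultra

theorem zgu : ZguStmt := by
  intro F _ U mx hG u v
  have hT : Subgroup.closure {u : (UP F U)ˣ | (u : UP F U) - 1 ∈ UM F U mx} = T F U hG :=
    Subgroup.closure_eq (T F U hG)
  have h1 : rv (UP F U) (UM F U mx) u = rv (UP F U) (UM F U mx) v ↔
      u⁻¹ * v ∈ Subgroup.closure {u : (UP F U)ˣ | (u : UP F U) - 1 ∈ UM F U mx} :=
    QuotientGroup.eq
  rw [h1, hT, ← Subgroup.inv_mem_iff]
  have h2 : (((u⁻¹ * v)⁻¹ : (UP F U)ˣ) : UP F U) = (u : UP F U) / (v : UP F U) := by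
    rw [mul_inv_rev, inv_inv, Units.val_mul, Units.val_inv_eq_inv_val, mul_comm, div_eq_mul_inv]
  rw [← h2]
  exact Iff.rfl

end Pool.Agent.FHQ.H77
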